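import Pool.Agent.J4H91.RZ.AbsCore

/-!
# Project RZ, piece ABS: choice of the parameters
-/

set_option autoImplicit false

namespace Pool.Agent.J4H91.RZ

open MeasureTheory Set

/-- the inequality for the number of zeros, for a continuous function on the line -/
theorem count (ε c C T : ℝ) (hε : 0 < ε) (hε1 : ε ≤ 1 / 100) (hc : 0 < c) (hC : 0 < C) (K1 c1 K : ℝ)
    (hK1 : K1 = 1 + 2 / c) (hc1 : c1 = c / (2 * K1)) (hK : K = 1 + 8 / c1)
    (e1 : 4 / c1 ≤ T ^ (1 / 2 : ℝ)) (e2 : 8 * (1 + C) / c1 ≤ T ^ (ε / 2)) (e3 : 4 * K / c1 ≤ T ^ ε) (hT2 : 2 ≤ T)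
    (R : ℝ → ℝ) (hR : Continuous R) (h1 : c * T ^ (-(1 / 2 : ℝ)) ≤ ∫ v in T..(2 * T), (R v) ^ 2)
    (h2 : ∫ v in T..(3 * T), (R v) ^ 4 ≤ T ^ (ε - 2))
    (h3 : ∫ v in T..(2 * T), (∫ u in v..(v + T ^ (2 * ε)), R u) ^ 2 ≤ C * T ^ (2 * ε) * T ^ (-(1 / 2 : ℝ)))
    (Z : Finset ℝ) (hZ : ∀ x, T ≤ x → x ≤ 3 * T → R x = 0 → x ∈ Z) : T ^ (1 - 4 * ε) ≤ (Z.card : ℝ) := by
  have hT0 : 0 < T := by linarith
  have hT1 : 1 ≤ T := by linarith
  have pK1 : 1 ≤ K1 := by rw [hK1]; have : 0 < 2 / c := by positivity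
                          linarith
  have pK1' : 2 / c ≤ K1 := by rw [hK1]; linarith
  have pc1 : 0 < c1 := by rw [hc1]; positivity
  have pK : 1 ≤ K := by rw [hK]; have : 0 < 8 / c1 := by positivity
                        linarith
  have pK' : 8 / c1 ≤ K := by rw [hK]; linarith
  have hA : Continuous fun u => |R u| := hR.abs
  have iR : ∀ a b, IntervalIntegrable (fun u => R u) volume a b := fun a b => hR.intervalIntegrable a b
  have iA : ∀ a b, IntervalIntegrable (fun u => |R u|) volume a b := fun a b => hA.intervalIntegrable a b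
  have iQ : ∀ a b, IntervalIntegrable (fun u => R u ^ 4) volume a b := fun a b => (hR.pow 4).intervalIntegrable a b
  have i2 : ∀ a b, IntervalIntegrable (fun u => R u ^ 2) volume a b := fun a b => (hR.pow 2).intervalIntegrable a b
  obtain ⟨h, hh⟩ : ∃ h : ℝ, h = T ^ (2 * ε) := ⟨_, rfl⟩
  have h0 : 0 < h := by rw [hh]; positivity
  have hhT : h ≤ T := by
    rw [hh]
    calc T ^ (2 * ε) ≤ T ^ (1 : ℝ) := Real.rpow_le_rpow_of_exponent_le hT1 (by linarith)
      _ = T := Real.rpow_one T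
  -- pieces of the fourth moment
  have q1 : ∀ a b, T ≤ a → a ≤ b → b ≤ 3 * T → ∫ v in a..b, (R v) ^ 4 ≤ T ^ (ε - 2) := by
    intro a b ha hab hb
    have s1 := intervalIntegral.integral_add_adjacent_intervals (iQ T a) (iQ a b)
    have s2 := intervalIntegral.integral_add_adjacent_intervals (iQ T b) (iQ b (3 * T))
    have s3 : 0 ≤ ∫ v in T..a, (R v) ^ 4 := intervalIntegral.integral_nonneg ha (fun _ _ => by positivity)
    have s4 : 0 ≤ ∫ v in b..(3 * T), (R v) ^ 4 := intervalIntegral.integral_nonneg hb (fun _ _ => by positivity)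
    linarith
  -- powers
  obtain ⟨Y, hY⟩ : ∃ Y : ℝ, Y = T ^ (-(1 / 2 : ℝ)) := ⟨_, rfl⟩
  obtain ⟨W, hW⟩ : ∃ W : ℝ, W = T ^ (ε / 2 - 3 / 4) := ⟨_, rfl⟩
  obtain ⟨V, hV⟩ : ∃ V : ℝ, V = T ^ (1 / 4 - ε / 2) := ⟨_, rfl⟩
  have pY : 0 < Y := by rw [hY]; positivity
  have pW : 0 < W := by rw [hW]; positivity
  have pV : 0 < V := by rw [hV]; positivity
  have eY : Y = W * V := by rw [hY, hW, hV, ← Real.rpow_add hT0]; congr 1; ring
  have eQ : T ^ (ε - 2) = W ^ 2 * Y := by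
    rw [hW, hY, ← Real.rpow_natCast, ← Real.rpow_mul hT0.le, ← Real.rpow_add hT0]; congr 1; push_cast; ring
  have eQ' : T ^ (ε - 2) = W ^ 3 * V := by rw [eQ, eY]; ring
  -- (a)
  have a1 : c1 * V ≤ ∫ v in T..(2 * T), |R v| := by
    have hs : 0 < K1 * W := by positivity
    have b1 : ∫ v in T..(2 * T), (R v) ^ 2 ≤ ∫ v in T..(2 * T), (K1 * W * |R v| + ((K1 * W) ^ 2)⁻¹ * R v ^ 4) :=
      intervalIntegral.integral_mono_on (by linarith) (i2 _ _)
        (((iA _ _).const_mul _).add ((iQ _ _).const_mul _)) (fun v _ => pt2 _ _ hs)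
    rw [intervalIntegral.integral_add ((iA _ _).const_mul _) ((iQ _ _).const_mul _), intervalIntegral.integral_const_mul,
      intervalIntegral.integral_const_mul] at b1
    have b2 : ((K1 * W) ^ 2)⁻¹ * ∫ v in T..(2 * T), R v ^ 4 ≤ c / 2 * Y := by
      calc ((K1 * W) ^ 2)⁻¹ * ∫ v in T..(2 * T), R v ^ 4 ≤ ((K1 * W) ^ 2)⁻¹ * (W ^ 2 * Y) :=
            mul_le_mul_of_nonneg_left (eQ ▸ q1 T (2 * T) le_rfl (by linarith) (by linarith)) (by positivity)
        _ = (K1 ^ 2)⁻¹ * Y := by field_simp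
        _ ≤ c / 2 * Y := by
            refine mul_le_mul_of_nonneg_right ?_ pY.le
            rw [inv_le_comm₀ (by positivity) (by positivity), inv_div]
            nlinarith
    have b3 : c / 2 * (W * V) ≤ K1 * W * ∫ v in T..(2 * T), |R v| := by
      rw [← eY]; rw [← hY] at h1; linarith
    have b4 : c / 2 * V ≤ K1 * ∫ v in T..(2 * T), |R v| := by
      have : W * (c / 2 * V) ≤ W * (K1 * ∫ v in T..(2 * T), |R v|) := by linarith
      exact le_of_mul_le_mul_left this pW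
    rw [hc1]
    rw [div_mul_eq_mul_div, div_le_iff₀ (by positivity)]
    linarith
  -- (b)
  have a2 : ∫ v in T..(T + h), |R v| ≤ c1 / 2 * V := by
    have b1 : ∫ v in T..(T + h), |R v| ≤ ∫ v in T..(T + h), (Y + (Y ^ 3)⁻¹ * R v ^ 4) := by
      refine intervalIntegral.integral_mono_on (by linarith) (iA _ _)
        (intervalIntegrable_const.add ((iQ _ _).const_mul _)) (fun v _ => ?_)
      have := pt Y |R v| pY (abs_nonneg _)
      have h4 : |R v| ^ 4 = R v ^ 4 := by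
        rw [show (4 : ℕ) = 2 * 2 from rfl, pow_mul, pow_mul, sq_abs]
      rwa [h4] at this
    rw [intervalIntegral.integral_add intervalIntegrable_const ((iQ _ _).const_mul _), intervalIntegral.integral_const_mul,
      intervalIntegral.integral_const, smul_eq_mul, add_sub_cancel_left] at b1
    have b2 : (Y ^ 3)⁻¹ * ∫ v in T..(T + h), R v ^ 4 ≤ T ^ (2 * ε - 1 / 2) := by
      calc (Y ^ 3)⁻¹ * ∫ v in T..(T + h), R v ^ 4 ≤ (Y ^ 3)⁻¹ * T ^ (ε - 2) :=
            mul_le_mul_of_nonneg_left (q1 T (T + h) le_rfl (by linarith) (by linarith)) (by positivity)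
        _ = T ^ (ε - 1 / 2) := by
            rw [hY, ← Real.rpow_natCast, ← Real.rpow_mul hT0.le, ← Real.rpow_neg hT0.le, ← Real.rpow_add hT0]
            congr 1; push_cast; ring
        _ ≤ T ^ (2 * ε - 1 / 2) := Real.rpow_le_rpow_of_exponent_le hT1 (by linarith)
    have b3 : h * Y = T ^ (2 * ε - 1 / 2) := by
      rw [hh, hY, ← Real.rpow_add hT0]; congr 1
    have b4 : V = T ^ (2 * ε - 1 / 2) * T ^ (3 / 4 - 5 * ε / 2) := by
      rw [hV, ← Real.rpow_add hT0]; congr 1; ring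
    have b5 : 4 / c1 ≤ T ^ (3 / 4 - 5 * ε / 2) :=
      e1.trans (Real.rpow_le_rpow_of_exponent_le hT1 (by linarith))
    have b6 : 0 < T ^ (2 * ε - 1 / 2) := by positivity
    have b7 : T ^ (2 * ε - 1 / 2) * (4 / c1) ≤ V := by rw [b4]; exact mul_le_mul_of_nonneg_left b5 b6.le
    have b8 : T ^ (2 * ε - 1 / 2) * 4 ≤ c1 * V := by
      have : c1 * (T ^ (2 * ε - 1 / 2) * (4 / c1)) ≤ c1 * V := mul_le_mul_of_nonneg_left b7 pc1.le
      have e : c1 * (T ^ (2 * ε - 1 / 2) * (4 / c1)) = T ^ (2 * ε - 1 / 2) * 4 := by field_simp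
      linarith
    linarith
  -- (c)
  have a3 : ∫ v in T..(2 * T), |∫ u in v..(v + h), R u| ≤ c1 / 8 * (h * V) := by
    obtain ⟨U, hU⟩ : ∃ U : ℝ, U = T ^ (ε - 3 / 4) := ⟨_, rfl⟩
    have pU : 0 < U := by rw [hU]; positivity
    have cP : Continuous fun x => ∫ u in T..x, R u := intervalIntegral.continuous_primitive iR T
    have cA : Continuous fun v => ∫ u in v..(v + h), R u := by
      have : (fun v => ∫ u in v..(v + h), R u) = fun v => (∫ u in T..(v + h), R u) - ∫ u in T..v, R u := by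
        funext v
        exact (intervalIntegral.integral_interval_sub_left (iR _ _) (iR _ _)).symm
      rw [this]
      exact (cP.comp (continuous_add_const h)).sub cP
    have i3 : IntervalIntegrable (fun v => U⁻¹ * (∫ u in v..(v + h), R u) ^ 2) volume T (2 * T) :=
      (continuous_const.mul (cA.pow 2)).intervalIntegrable _ _
    have b1 : ∫ v in T..(2 * T), |∫ u in v..(v + h), R u| ≤
        ∫ v in T..(2 * T), (U + U⁻¹ * (∫ u in v..(v + h), R u) ^ 2) :=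
      intervalIntegral.integral_mono_on (by linarith) (cA.abs.intervalIntegrable _ _)
        (intervalIntegrable_const.add i3) (fun v _ => pt1 _ _ pU)
    rw [intervalIntegral.integral_add intervalIntegrable_const i3,
      intervalIntegral.integral_const_mul, intervalIntegral.integral_const, smul_eq_mul] at b1
    have b2 : U⁻¹ * ∫ v in T..(2 * T), (∫ u in v..(v + h), R u) ^ 2 ≤ C * T ^ (1 / 4 + ε) := by
      calc U⁻¹ * ∫ v in T..(2 * T), (∫ u in v..(v + h), R u) ^ 2 ≤ U⁻¹ * (C * T ^ (2 * ε) * T ^ (-(1 / 2 : ℝ))) :=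
            mul_le_mul_of_nonneg_left (by rw [hh]; exact h3) (by positivity)
        _ = C * (T ^ (-(ε - 3 / 4)) * T ^ (2 * ε) * T ^ (-(1 / 2 : ℝ))) := by
            rw [hU, Real.rpow_neg hT0.le (ε - 3 / 4)]; ring
        _ = C * T ^ (1 / 4 + ε) := by
            rw [← Real.rpow_add hT0, ← Real.rpow_add hT0]; congr 2; ring
    have b3 : (2 * T - T) * U = T ^ (1 / 4 + ε) := by
      have : (2 * T - T) * U = T ^ (1 : ℝ) * T ^ (ε - 3 / 4) := by rw [hU, Real.rpow_one]; ring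
      rw [this, ← Real.rpow_add hT0]; congr 1; ring
    have b4 : T ^ (1 / 4 + ε) = h * T ^ (1 / 4 - ε) := by
      rw [hh, ← Real.rpow_add hT0]; congr 1; ring
    have b5 : V = T ^ (1 / 4 - ε) * T ^ (ε / 2) := by
      rw [hV, ← Real.rpow_add hT0]; congr 1; ring
    have b6 : 0 < T ^ (1 / 4 - ε) := by positivity
    have b7 : T ^ (1 / 4 - ε) * (8 * (1 + C) / c1) ≤ V := by rw [b5]; exact mul_le_mul_of_nonneg_left e2 b6.le
    have b8 : T ^ (1 / 4 - ε) * (8 * (1 + C)) ≤ c1 * V := by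
      have : c1 * (T ^ (1 / 4 - ε) * (8 * (1 + C) / c1)) ≤ c1 * V := mul_le_mul_of_nonneg_left b7 pc1.le
      have e : c1 * (T ^ (1 / 4 - ε) * (8 * (1 + C) / c1)) = T ^ (1 / 4 - ε) * (8 * (1 + C)) := by field_simp
      linarith
    have b9 : h * (T ^ (1 / 4 - ε) * (8 * (1 + C))) ≤ h * (c1 * V) := mul_le_mul_of_nonneg_left b8 h0.le
    rw [b3] at b1
    rw [b4] at b1 b2
    linarith
  -- (d)
  have hs : 0 < K * W := by positivity
  have a4 : ((K * W) ^ 3)⁻¹ * (h * ∫ v in T..(3 * T), R v ^ 4) ≤ c1 / 8 * (h * V) := by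
    calc ((K * W) ^ 3)⁻¹ * (h * ∫ v in T..(3 * T), R v ^ 4) ≤ ((K * W) ^ 3)⁻¹ * (h * (W ^ 3 * V)) := by
          refine mul_le_mul_of_nonneg_left (mul_le_mul_of_nonneg_left (eQ' ▸ h2) h0.le) (by positivity)
      _ = (K ^ 3)⁻¹ * (h * V) := by field_simp
      _ ≤ c1 / 8 * (h * V) := by
          refine mul_le_mul_of_nonneg_right ?_ (by positivity)
          rw [inv_le_comm₀ (by positivity) (by positivity), inv_div]
          have : K ≤ K ^ 3 := le_self_pow₀ pK (by norm_num)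
          linarith
  have hcore := core T h hT0 h0 hhT R hR Z hZ (K * W) hs
  have hsplit := intervalIntegral.integral_add_adjacent_intervals (iA T (T + h)) (iA (T + h) (2 * T))
  have a5 : c1 / 2 * V ≤ ∫ v in (T + h)..(2 * T), |R v| := by linarith
  have a6 := mul_le_mul_of_nonneg_left a5 h0.le
  have a7 : h * (c1 / 4 * V) ≤ h * (K * W * (Z.card * h)) := by nlinarith
  have a8 : c1 / 4 * V ≤ K * W * (Z.card * h) := le_of_mul_le_mul_left a7 h0
  have eV : V = W * h * T ^ (1 - 3 * ε) := by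
    rw [hV, hW, hh, ← Real.rpow_add hT0, ← Real.rpow_add hT0]; congr 1; ring
  have a9 : W * h * (c1 / 4 * T ^ (1 - 3 * ε)) ≤ W * h * (K * Z.card) := by
    rw [eV] at a8; nlinarith
  have a10 : c1 / 4 * T ^ (1 - 3 * ε) ≤ K * Z.card := le_of_mul_le_mul_left a9 (by positivity)
  have e4 : T ^ (1 - 3 * ε) = T ^ (1 - 4 * ε) * T ^ ε := by rw [← Real.rpow_add hT0]; congr 1; ring
  have a11 : c1 / 4 * (T ^ (1 - 4 * ε) * (4 * K / c1)) ≤ K * Z.card := by
    refine le_trans ?_ a10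
    rw [e4]
    refine mul_le_mul_of_nonneg_left (mul_le_mul_of_nonneg_left e3 (by positivity)) (by positivity)
  have a12 : c1 / 4 * (T ^ (1 - 4 * ε) * (4 * K / c1)) = K * T ^ (1 - 4 * ε) := by field_simp
  rw [a12] at a11
  exact le_of_mul_le_mul_left a11 (by linarith)

/-- `S_ABS` -/
theorem abs_main : ∀ ε c C : ℝ, 0 < ε → ε ≤ 1 / 100 → 0 < c → 0 < C → ∃ T₀ : ℝ, 2 ≤ T₀ ∧ ∀ (T : ℝ) (R : ℝ → ℝ), T₀ ≤ T →
    ContinuousOn R (Set.Icc T (3 * T)) → c * T ^ (-(1 / 2 : ℝ)) ≤ ∫ v in T..(2 * T), (R v) ^ 2 →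
    ∫ v in T..(3 * T), (R v) ^ 4 ≤ T ^ (ε - 2) →
    ∫ v in T..(2 * T), (∫ u in v..(v + T ^ (2 * ε)), R u) ^ 2 ≤ C * T ^ (2 * ε) * T ^ (-(1 / 2 : ℝ)) →
    ∃ S : Finset ℝ, (∀ x ∈ S, T ≤ x ∧ x ≤ 3 * T ∧ R x = 0) ∧ T ^ (1 - 4 * ε) ≤ (S.card : ℝ) := by
  intro ε c C hε hε1 hc hC
  obtain ⟨K1, hK1⟩ : ∃ K1 : ℝ, K1 = 1 + 2 / c := ⟨_, rfl⟩
  obtain ⟨c1, hc1⟩ : ∃ c1 : ℝ, c1 = c / (2 * K1) := ⟨_, rfl⟩
  obtain ⟨K, hK⟩ : ∃ K : ℝ, K = 1 + 8 / c1 := ⟨_, rfl⟩
  have e1 := (tendsto_rpow_atTop (show (0 : ℝ) < 1 / 2 by norm_num)).eventually_ge_atTop (4 / c1)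
  have e2 := (tendsto_rpow_atTop (show (0 : ℝ) < ε / 2 by linarith)).eventually_ge_atTop (8 * (1 + C) / c1)
  have e3 := (tendsto_rpow_atTop hε).eventually_ge_atTop (4 * K / c1)
  obtain ⟨T₀, hT₀⟩ := Filter.eventually_atTop.1 ((e1.and e2).and e3)
  refine ⟨max T₀ 2, le_max_right _ _, fun T R hT hR h1 h2 h3 => ?_⟩
  obtain ⟨⟨f1, f2⟩, f3⟩ := hT₀ T (le_trans (le_max_left _ _) hT)
  have hT2 : 2 ≤ T := le_trans (le_max_right _ _) hT
  have hT1 : 1 ≤ T := by linarith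
  have hle : T ≤ 3 * T := by linarith
  obtain ⟨R', hR', hRR⟩ : ∃ R' : ℝ → ℝ, Continuous R' ∧ ∀ x ∈ Icc T (3 * T), R' x = R x := by
    refine ⟨IccExtend hle ((Icc T (3 * T)).domRestrict R), (continuousOn_iff_continuous_domRestrict.1 hR).Icc_extend', ?_⟩
    intro x hx
    rw [IccExtend_of_mem hle _ hx]; rfl
  have hhT : T ^ (2 * ε) ≤ T := by
    calc T ^ (2 * ε) ≤ T ^ (1 : ℝ) := Real.rpow_le_rpow_of_exponent_le hT1 (by linarith)
      _ = T := Real.rpow_one T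
  have h0 : 0 < T ^ (2 * ε) := by positivity
  have g1 : ∫ v in T..(2 * T), (R' v) ^ 2 = ∫ v in T..(2 * T), (R v) ^ 2 := by
    apply intervalIntegral.integral_congr
    intro x hx
    rw [uIcc_of_le (by linarith)] at hx
    show R' x ^ 2 = R x ^ 2
    rw [hRR x ⟨hx.1, by linarith [hx.2]⟩]
  have g2 : ∫ v in T..(3 * T), (R' v) ^ 4 = ∫ v in T..(3 * T), (R v) ^ 4 := by
    apply intervalIntegral.integral_congr
    intro x hx
    rw [uIcc_of_le (by linarith)] at hx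
    show R' x ^ 4 = R x ^ 4
    rw [hRR x ⟨hx.1, hx.2⟩]
  have g3 : ∫ v in T..(2 * T), (∫ u in v..(v + T ^ (2 * ε)), R' u) ^ 2 =
      ∫ v in T..(2 * T), (∫ u in v..(v + T ^ (2 * ε)), R u) ^ 2 := by
    apply intervalIntegral.integral_congr
    intro v hv
    rw [uIcc_of_le (by linarith)] at hv
    show (∫ u in v..(v + T ^ (2 * ε)), R' u) ^ 2 = (∫ u in v..(v + T ^ (2 * ε)), R u) ^ 2
    congr 1
    apply intervalIntegral.integral_congr
    intro x hx
    rw [uIcc_of_le (by linarith)] at hx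
    exact hRR x ⟨hv.1.trans hx.1, by linarith [hx.2, hv.2]⟩
  by_cases hfin : {x : ℝ | T ≤ x ∧ x ≤ 3 * T ∧ R x = 0}.Finite
  · refine ⟨hfin.toFinset, fun x hx => by simpa using hx, ?_⟩
    refine count ε c C T hε hε1 hc hC K1 c1 K hK1 hc1 hK f1 f2 f3 hT2 R' hR' (g1 ▸ h1) (g2 ▸ h2) (g3 ▸ h3) _ ?_
    intro x hx1 hx2 hx0
    rw [hRR x ⟨hx1, hx2⟩] at hx0
    simpa using ⟨hx1, hx2, hx0⟩
  · obtain ⟨S, hS, hcard⟩ := Set.Infinite.exists_subset_card_eq hfin ⌈T ^ (1 - 4 * ε)⌉₊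
    refine ⟨S, fun x hx => hS hx, ?_⟩
    rw [hcard]
    exact Nat.le_ceil _

end Pool.Agent.J4H91.RZ
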