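import Pool.Agent.J4H5.RZ.Stm
import Pool.Agent.J4H91.RZ.AbsFin

/-!
# Project RZ, piece ABS: `S_ABS`
-/

set_option autoImplicit false

namespace Pool.Agent.J4H91.RZ

theorem t_ABS : Pool.Agent.J4H5.RZ.S_ABS := abs_main

end Pool.Agent.J4H91.RZ
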