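import Mathlib

/-!
# Project RZ, piece ABS: many sign changes from a mean square, a fourth moment and a bound for windows (core)
-/

set_option autoImplicit false

namespace Pool.Agent.J4H91.RZ

open MeasureTheory Set

theorem shift_eq (G : ℝ → ℝ) (cG : Continuous G) (a b h : ℝ) :
    ∫ v in a..b, (G (v + h) - G v) = (∫ v in b..(b + h), G v) - ∫ v in a..(a + h), G v := by
  have iG : ∀ x y, IntervalIntegrable G volume x y := fun x y => cG.intervalIntegrable x y
  have i1 : IntervalIntegrable (fun v => G (v + h)) volume a b := (cG.comp (continuous_add_const h)).intervalIntegrable _ _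
  rw [intervalIntegral.integral_sub i1 (iG _ _), intervalIntegral.integral_comp_add_right]
  have h1 := intervalIntegral.integral_add_adjacent_intervals (iG (a + h) b) (iG b (b + h))
  have h2 := intervalIntegral.integral_add_adjacent_intervals (iG a (a + h)) (iG (a + h) b)
  linarith

theorem mono_lower (G : ℝ → ℝ) (cG : Continuous G) (mG : Monotone G) (a h : ℝ) (h0 : 0 ≤ h) :
    h * G a ≤ ∫ v in a..(a + h), G v := by
  have h1 := intervalIntegral.integral_mono_on (μ := volume) (a := a) (b := a + h) (f := fun _ => G a) (g := G)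
    (by linarith) (continuous_const.intervalIntegrable _ _) (cG.intervalIntegrable _ _) (fun x hx => mG hx.1)
  simpa using h1

theorem mono_upper (G : ℝ → ℝ) (cG : Continuous G) (mG : Monotone G) (a h : ℝ) (h0 : 0 ≤ h) :
    ∫ v in a..(a + h), G v ≤ h * G (a + h) := by
  have h1 := intervalIntegral.integral_mono_on (μ := volume) (a := a) (b := a + h) (f := G) (g := fun _ => G (a + h))
    (by linarith) (cG.intervalIntegrable _ _) (continuous_const.intervalIntegrable _ _) (fun x hx => mG hx.2)
  simpa using h1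

/-- no zero: constant sign -/
theorem abs_window (R : ℝ → ℝ) (hR : Continuous R) (v h : ℝ) (h0 : 0 < h) (hz : ∀ x, v ≤ x → x ≤ v + h → R x ≠ 0) :
    ∫ u in v..(v + h), |R u| = |∫ u in v..(v + h), R u| := by
  have hle : v ≤ v + h := by linarith
  rcases lt_or_gt_of_ne (hz v le_rfl hle) with hneg | hpos
  · have hall : ∀ x ∈ Icc v (v + h), R x < 0 := by
      intro x hx
      by_contra hcon
      push Not at hcon
      obtain ⟨y, hy, hy0⟩ := intermediate_value_Icc hx.1 hR.continuousOn (show (0 : ℝ) ∈ Icc (R v) (R x) from ⟨hneg.le, hcon⟩)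
      exact hz y hy.1 (hy.2.trans hx.2) hy0
    have h1 : ∫ u in v..(v + h), |R u| = ∫ u in v..(v + h), -R u := by
      apply intervalIntegral.integral_congr
      intro x hx
      rw [uIcc_of_le hle] at hx
      exact abs_of_neg (hall x hx)
    rw [h1, intervalIntegral.integral_neg]
    have h2 : 0 ≤ ∫ u in v..(v + h), -R u :=
      intervalIntegral.integral_nonneg hle (fun x hx => by have := hall x hx; linarith)
    rw [intervalIntegral.integral_neg] at h2
    rw [abs_of_nonpos (by linarith)]
  · have hall : ∀ x ∈ Icc v (v + h), 0 < R x := by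
      intro x hx
      by_contra hcon
      push Not at hcon
      obtain ⟨y, hy, hy0⟩ := intermediate_value_Icc' hx.1 hR.continuousOn (show (0 : ℝ) ∈ Icc (R x) (R v) from ⟨hcon, hpos.le⟩)
      exact hz y hy.1 (hy.2.trans hx.2) hy0
    have h1 : ∫ u in v..(v + h), |R u| = ∫ u in v..(v + h), R u := by
      apply intervalIntegral.integral_congr
      intro x hx
      rw [uIcc_of_le hle] at hx
      exact abs_of_pos (hall x hx)
    rw [h1]
    have h2 : 0 ≤ ∫ u in v..(v + h), R u :=
      intervalIntegral.integral_nonneg hle (fun x hx => (hall x hx).le)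
    rw [abs_of_nonneg h2]

theorem pt (s x : ℝ) (hs : 0 < s) (hx : 0 ≤ x) : x ≤ s + (s ^ 3)⁻¹ * x ^ 4 := by
  rcases le_total x s with h | h
  · have : 0 ≤ (s ^ 3)⁻¹ * x ^ 4 := by positivity
    linarith
  · have h1 : s ^ 3 ≤ x ^ 3 := pow_le_pow_left₀ hs.le h 3
    have h2 : x ≤ (s ^ 3)⁻¹ * x ^ 4 := by
      rw [inv_mul_eq_div, le_div_iff₀ (by positivity)]
      nlinarith
    linarith

theorem pt2 (s x : ℝ) (hs : 0 < s) : x ^ 2 ≤ s * |x| + (s ^ 2)⁻¹ * x ^ 4 := by
  rcases le_total |x| s with h | h
  · have h1 : 0 ≤ (s ^ 2)⁻¹ * x ^ 4 := by positivity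
    have h2 : x ^ 2 ≤ s * |x| := by
      rw [← sq_abs, sq]
      exact mul_le_mul_of_nonneg_right h (abs_nonneg x)
    linarith
  · have h1 : s ^ 2 ≤ x ^ 2 := by rw [← sq_abs x]; exact pow_le_pow_left₀ hs.le h 2
    have h2 : x ^ 2 ≤ (s ^ 2)⁻¹ * x ^ 4 := by
      rw [inv_mul_eq_div, le_div_iff₀ (by positivity)]
      nlinarith [sq_nonneg x]
    have h3 : 0 ≤ s * |x| := by positivity
    linarith

theorem pt1 (s x : ℝ) (hs : 0 < s) : |x| ≤ s + s⁻¹ * x ^ 2 := by
  rcases le_total |x| s with h | h
  · have h1 : 0 ≤ s⁻¹ * x ^ 2 := by positivity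
    linarith
  · have h2 : |x| ≤ s⁻¹ * x ^ 2 := by
      rw [inv_mul_eq_div, le_div_iff₀ hs, ← sq_abs x, sq]
      exact mul_le_mul_of_nonneg_left h (abs_nonneg x)
    linarith

/-- the core inequality -/
theorem core (T h : ℝ) (hT : 0 < T) (h0 : 0 < h) (hh : h ≤ T) (R : ℝ → ℝ) (hR : Continuous R)
    (Z : Finset ℝ) (hZ : ∀ x, T ≤ x → x ≤ 3 * T → R x = 0 → x ∈ Z) (s : ℝ) (hs : 0 < s) :
    h * ∫ u in (T + h)..(2 * T), |R u| ≤
      (∫ v in T..(2 * T), |∫ u in v..(v + h), R u|) + s * h * (Z.card * h) +
        (s ^ 3)⁻¹ * (h * ∫ v in T..(3 * T), R v ^ 4) := by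
  have hA : Continuous fun u => |R u| := hR.abs
  have hQ4 : Continuous fun u => R u ^ 4 := hR.pow 4
  have iA : ∀ a b, IntervalIntegrable (fun u => |R u|) volume a b := fun a b => hA.intervalIntegrable a b
  have iQ : ∀ a b, IntervalIntegrable (fun u => R u ^ 4) volume a b := fun a b => hQ4.intervalIntegrable a b
  have iR : ∀ a b, IntervalIntegrable (fun u => R u) volume a b := fun a b => hR.intervalIntegrable a b
  obtain ⟨G, hG⟩ : ∃ G : ℝ → ℝ, G = fun x => ∫ u in T..x, |R u| := ⟨_, rfl⟩
  obtain ⟨Q, hQ⟩ : ∃ Q : ℝ → ℝ, Q = fun x => ∫ u in T..x, R u ^ 4 := ⟨_, rfl⟩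
  obtain ⟨P, hP⟩ : ∃ P : ℝ → ℝ, P = fun x => ∫ u in T..x, R u := ⟨_, rfl⟩
  have cG : Continuous G := hG ▸ intervalIntegral.continuous_primitive iA T
  have cQ : Continuous Q := hQ ▸ intervalIntegral.continuous_primitive iQ T
  have cP : Continuous P := hP ▸ intervalIntegral.continuous_primitive iR T
  have dG : ∀ x y, (∫ u in x..y, |R u|) = G y - G x := fun x y => by
    rw [hG]; exact (intervalIntegral.integral_interval_sub_left (iA _ _) (iA _ _)).symm
  have dQ : ∀ x y, (∫ u in x..y, R u ^ 4) = Q y - Q x := fun x y => by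
    rw [hQ]; exact (intervalIntegral.integral_interval_sub_left (iQ _ _) (iQ _ _)).symm
  have dP : ∀ x y, (∫ u in x..y, R u) = P y - P x := fun x y => by
    rw [hP]; exact (intervalIntegral.integral_interval_sub_left (iR _ _) (iR _ _)).symm
  have mG : Monotone G := fun x y hxy => by
    have h1 : 0 ≤ ∫ u in x..y, |R u| := intervalIntegral.integral_nonneg hxy (fun u _ => abs_nonneg _)
    rw [dG] at h1; linarith
  have mQ : Monotone Q := fun x y hxy => by
    have h1 : 0 ≤ ∫ u in x..y, R u ^ 4 := intervalIntegral.integral_nonneg hxy (fun u _ => by positivity)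
    rw [dQ] at h1; linarith
  have hQT : Q T = 0 := by rw [hQ]; simp
  -- pointwise
  have hpt : ∀ v ∈ Icc T (2 * T), G (v + h) - G v ≤
      (|P (v + h) - P v| + ∑ z ∈ Z, (Icc (z - h) z).indicator (fun _ => s * h) v) +
        (s ^ 3)⁻¹ * (Q (v + h) - Q v) := by
    intro v hv
    have hle : v ≤ v + h := by linarith
    by_cases hz : ∃ x, v ≤ x ∧ x ≤ v + h ∧ R x = 0
    · obtain ⟨x, hx1, hx2, hx0⟩ := hz
      have hxZ : x ∈ Z := hZ x (hv.1.trans hx1) (by have := hv.2; linarith) hx0
      have h1 : s * h ≤ ∑ z ∈ Z, (Icc (z - h) z).indicator (fun _ => s * h) v := by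
        have h2 : (Icc (x - h) x).indicator (fun _ => s * h) v = s * h :=
          indicator_of_mem (show v ∈ Icc (x - h) x from ⟨by linarith, hx1⟩) _
        calc s * h = (Icc (x - h) x).indicator (fun _ => s * h) v := h2.symm
          _ ≤ _ := Finset.single_le_sum (f := fun z => (Icc (z - h) z).indicator (fun _ => s * h) v)
              (fun z _ => indicator_nonneg (fun _ _ => by positivity) _) hxZ
      have h3 : ∫ u in v..(v + h), |R u| ≤ ∫ u in v..(v + h), (s + (s ^ 3)⁻¹ * R u ^ 4) := by
        apply intervalIntegral.integral_mono_on hle (iA _ _)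
          ((continuous_const.add (continuous_const.mul hQ4)).intervalIntegrable _ _)
        intro u _
        have := pt s |R u| hs (abs_nonneg _)
        have h4 : |R u| ^ 4 = R u ^ 4 := by
          rw [show (4 : ℕ) = 2 * 2 from rfl, pow_mul, pow_mul, sq_abs]
        rwa [h4] at this
      have i1 : IntervalIntegrable (fun _ : ℝ => s) volume v (v + h) := continuous_const.intervalIntegrable _ _
      have i2 : IntervalIntegrable (fun u => (s ^ 3)⁻¹ * R u ^ 4) volume v (v + h) :=
        (continuous_const.mul hQ4).intervalIntegrable _ _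
      rw [intervalIntegral.integral_add i1 i2, intervalIntegral.integral_const_mul, dQ, dG] at h3
      simp only [intervalIntegral.integral_const, add_sub_cancel_left, smul_eq_mul] at h3
      have h5 := abs_nonneg (P (v + h) - P v)
      linarith [mul_comm h s]
    · push Not at hz
      have h1 := abs_window R hR v h h0 (fun x hx1 hx2 => hz x hx1 hx2)
      rw [dG, dP] at h1
      have h2 : 0 ≤ ∑ z ∈ Z, (Icc (z - h) z).indicator (fun _ => s * h) v :=
        Finset.sum_nonneg (fun z _ => indicator_nonneg (fun _ _ => by positivity) _)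
      have h3 : 0 ≤ (s ^ 3)⁻¹ * (Q (v + h) - Q v) :=
        mul_nonneg (by positivity) (by have := mQ hle; linarith)
      linarith
  have iI : ∀ z : ℝ, IntervalIntegrable (fun v => (Icc (z - h) z).indicator (fun _ => s * h) v) volume T (2 * T) := by
    intro z
    rw [intervalIntegrable_iff]
    exact (intervalIntegrable_iff.1 (intervalIntegrable_const (μ := volume) (a := T) (b := 2 * T) (c := s * h))).indicator
      measurableSet_Icc
  have iS : IntervalIntegrable (fun v => ∑ z ∈ Z, (Icc (z - h) z).indicator (fun _ => s * h) v) volume T (2 * T) := by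
    have h1 := IntervalIntegrable.sum Z (f := fun z v => (Icc (z - h) z).indicator (fun _ => s * h) v) (fun z _ => iI z)
    exact h1.congr (fun v _ => by simp)
  have cAb : Continuous fun v => |P (v + h) - P v| :=
    ((cP.comp (continuous_add_const h)).sub cP).abs
  have cQd : Continuous fun v => Q (v + h) - Q v := (cQ.comp (continuous_add_const h)).sub cQ
  have cGd : Continuous fun v => G (v + h) - G v := (cG.comp (continuous_add_const h)).sub cG
  have j1 : IntervalIntegrable (fun v => |P (v + h) - P v|) volume T (2 * T) := cAb.intervalIntegrable _ _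
  have j2 : IntervalIntegrable (fun v => (s ^ 3)⁻¹ * (Q (v + h) - Q v)) volume T (2 * T) :=
    (continuous_const.mul cQd).intervalIntegrable _ _
  have hmain := intervalIntegral.integral_mono_on (μ := volume) (a := T) (b := 2 * T) (by linarith)
    (cGd.intervalIntegrable _ _) ((j1.add iS).add j2) hpt
  rw [intervalIntegral.integral_add (j1.add iS) j2,
    intervalIntegral.integral_add j1 iS, intervalIntegral.integral_const_mul,
    shift_eq G cG, shift_eq Q cQ, intervalIntegral.integral_finsetSum (fun z _ => iI z)] at hmain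
  have hIz : ∀ z ∈ Z, ∫ v in T..(2 * T), (Icc (z - h) z).indicator (fun _ => s * h) v ≤ s * h * h := by
    intro z _
    rw [intervalIntegral.integral_of_le (by linarith), MeasureTheory.integral_indicator measurableSet_Icc,
      MeasureTheory.integral_const, smul_eq_mul, mul_comm]
    refine mul_le_mul_of_nonneg_left ?_ (by positivity)
    rw [Measure.restrict_restrict measurableSet_Icc, measureReal_restrict_apply_univ]
    have h1 : volume.real (Icc (z - h) z ∩ Ioc T (2 * T)) ≤ volume.real (Icc (z - h) z) :=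
      measureReal_mono inter_subset_left (by simp)
    refine h1.trans ?_
    rw [Real.volume_real_Icc_of_le (by linarith)]
    linarith
  have hIs := Finset.sum_le_card_nsmul Z _ _ hIz
  rw [nsmul_eq_mul] at hIs
  have l1 := mono_lower G cG mG (2 * T) h h0.le
  have l2 := mono_upper G cG mG T h h0.le
  have l3 := mono_upper Q cQ mQ (2 * T) h h0.le
  have l4 := mono_lower Q cQ mQ T h h0.le
  rw [hQT, mul_zero] at l4
  have l5 : Q (2 * T + h) ≤ Q (3 * T) := mQ (by linarith)
  have l6 : (s ^ 3)⁻¹ * ((∫ v in (2 * T)..(2 * T + h), Q v) - ∫ v in T..(T + h), Q v) ≤ (s ^ 3)⁻¹ * (h * Q (3 * T)) := by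
    refine mul_le_mul_of_nonneg_left ?_ (by positivity)
    have := mul_le_mul_of_nonneg_left l5 h0.le
    linarith
  simp only [dP, dG, dQ, hQT, sub_zero]
  nlinarith

end Pool.Agent.J4H91.RZ
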