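import Pool.Agent.J4H91.RZ.AbsCore

/-!
# Project RZ, piece ABSL: powers of the logarithm (and the sharper form with `c T / (log T)^10`)
-/

set_option autoImplicit false

namespace Pool.Agent.J4H91.RZ

open MeasureTheory Set

/-- the inequality for the number of zeros, `T = t^4`, window `h`, fourth moment `C M^10 / t^8` -/
theorem countL (c C T t M h : ℝ) (hc : 0 < c) (hC : 0 < C) (K1 c1 K : ℝ)
    (hK1 : K1 = 1 + 2 * C / c) (hc1 : c1 = c / (2 * K1)) (hK : K = 1 + 8 * C / c1)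
    (ht : 0 < t) (hTt : T = t ^ 4) (hM : 0 < M) (h0 : 0 < h) (hhT : h ≤ T)
    (e1 : (h + C * M ^ 10) * M ^ 5 ≤ c1 / 2 * t ^ 3) (e2 : 256 * C / c1 ^ 2 * M ^ 10 ≤ h)
    (R : ℝ → ℝ) (hR : Continuous R) (h1 : c * (t ^ 2)⁻¹ ≤ ∫ v in T..(2 * T), (R v) ^ 2)
    (h2 : ∫ v in T..(3 * T), (R v) ^ 4 ≤ C * M ^ 10 * (t ^ 8)⁻¹)
    (h3 : ∫ v in T..(2 * T), (∫ u in v..(v + h), R u) ^ 2 ≤ C * h * (t ^ 2)⁻¹)
    (Z : Finset ℝ) (hZ : ∀ x, T ≤ x → x ≤ 3 * T → R x = 0 → x ∈ Z) : c1 / (4 * K) * (T / (M ^ 10 * h)) ≤ (Z.card : ℝ) := by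
  have hT0 : 0 < T := by rw [hTt]; positivity
  have pK1 : 1 ≤ K1 := by rw [hK1]; have : 0 < 2 * C / c := by positivity
                          linarith
  have pK1' : 2 * C / c ≤ K1 := by rw [hK1]; linarith
  have pc1 : 0 < c1 := by rw [hc1]; positivity
  have pK : 1 ≤ K := by rw [hK]; have : 0 < 8 * C / c1 := by positivity
                        linarith
  have pK' : 8 * C / c1 ≤ K := by rw [hK]; linarith
  have hA : Continuous fun u => |R u| := hR.abs
  have iR : ∀ a b, IntervalIntegrable (fun u => R u) volume a b := fun a b => hR.intervalIntegrable a b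
  have iA : ∀ a b, IntervalIntegrable (fun u => |R u|) volume a b := fun a b => hA.intervalIntegrable a b
  have iQ : ∀ a b, IntervalIntegrable (fun u => R u ^ 4) volume a b := fun a b => (hR.pow 4).intervalIntegrable a b
  have i2 : ∀ a b, IntervalIntegrable (fun u => R u ^ 2) volume a b := fun a b => (hR.pow 2).intervalIntegrable a b
  -- pieces of the fourth moment
  have q1 : ∀ a b, T ≤ a → a ≤ b → b ≤ 3 * T → ∫ v in a..b, (R v) ^ 4 ≤ C * M ^ 10 * (t ^ 8)⁻¹ := by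
    intro a b ha hab hb
    have s1 := intervalIntegral.integral_add_adjacent_intervals (iQ T a) (iQ a b)
    have s2 := intervalIntegral.integral_add_adjacent_intervals (iQ T b) (iQ b (3 * T))
    have s3 : 0 ≤ ∫ v in T..a, (R v) ^ 4 := intervalIntegral.integral_nonneg ha (fun _ _ => by positivity)
    have s4 : 0 ≤ ∫ v in b..(3 * T), (R v) ^ 4 := intervalIntegral.integral_nonneg hb (fun _ _ => by positivity)
    linarith
  obtain ⟨W, hW⟩ : ∃ W : ℝ, W = M ^ 5 / t ^ 3 := ⟨_, rfl⟩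
  obtain ⟨V, hV⟩ : ∃ V : ℝ, V = t / M ^ 5 := ⟨_, rfl⟩
  have pW : 0 < W := by rw [hW]; positivity
  have pV : 0 < V := by rw [hV]; positivity
  have eY : (t ^ 2)⁻¹ = W * V := by rw [hW, hV]; field_simp
  have eQ : C * M ^ 10 * (t ^ 8)⁻¹ = C * (W ^ 2 * (W * V)) := by rw [hW, hV]; field_simp
  have eQ' : C * M ^ 10 * (t ^ 8)⁻¹ = C * (W ^ 3 * V) := by rw [eQ]; ring
  rw [eY] at h1 h3
  rw [eQ] at q1
  rw [eQ'] at h2
  -- (a)
  have a1 : c1 * V ≤ ∫ v in T..(2 * T), |R v| := by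
    have hs : 0 < K1 * W := by positivity
    have b1 : ∫ v in T..(2 * T), (R v) ^ 2 ≤ ∫ v in T..(2 * T), (K1 * W * |R v| + ((K1 * W) ^ 2)⁻¹ * R v ^ 4) :=
      intervalIntegral.integral_mono_on (by linarith) (i2 _ _)
        (((iA _ _).const_mul _).add ((iQ _ _).const_mul _)) (fun v _ => pt2 _ _ hs)
    rw [intervalIntegral.integral_add ((iA _ _).const_mul _) ((iQ _ _).const_mul _), intervalIntegral.integral_const_mul,
      intervalIntegral.integral_const_mul] at b1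
    have b2 : ((K1 * W) ^ 2)⁻¹ * ∫ v in T..(2 * T), R v ^ 4 ≤ c / 2 * (W * V) := by
      calc ((K1 * W) ^ 2)⁻¹ * ∫ v in T..(2 * T), R v ^ 4 ≤ ((K1 * W) ^ 2)⁻¹ * (C * (W ^ 2 * (W * V))) :=
            mul_le_mul_of_nonneg_left (q1 T (2 * T) le_rfl (by linarith) (by linarith)) (by positivity)
        _ = C / K1 ^ 2 * (W * V) := by field_simp
        _ ≤ c / 2 * (W * V) := by
            refine mul_le_mul_of_nonneg_right ?_ (by positivity)
            rw [div_le_iff₀ (by positivity)]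
            rw [div_le_iff₀ hc] at pK1'
            nlinarith
    have b4 : W * (c / 2 * V) ≤ W * (K1 * ∫ v in T..(2 * T), |R v|) := by linarith
    have b5 := le_of_mul_le_mul_left b4 pW
    rw [hc1, div_mul_eq_mul_div, div_le_iff₀ (by positivity)]
    linarith
  -- (b)
  have a2 : ∫ v in T..(T + h), |R v| ≤ c1 / 2 * V := by
    have pY : 0 < (t ^ 2)⁻¹ := by positivity
    have b1 : ∫ v in T..(T + h), |R v| ≤ ∫ v in T..(T + h), ((t ^ 2)⁻¹ + (((t ^ 2)⁻¹) ^ 3)⁻¹ * R v ^ 4) := by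
      refine intervalIntegral.integral_mono_on (by linarith) (iA _ _)
        (intervalIntegrable_const.add ((iQ _ _).const_mul _)) (fun v _ => ?_)
      have := pt (t ^ 2)⁻¹ |R v| pY (abs_nonneg _)
      have h4 : |R v| ^ 4 = R v ^ 4 := by
        rw [show (4 : ℕ) = 2 * 2 from rfl, pow_mul, pow_mul, sq_abs]
      rwa [h4] at this
    rw [intervalIntegral.integral_add intervalIntegrable_const ((iQ _ _).const_mul _), intervalIntegral.integral_const_mul,
      intervalIntegral.integral_const, smul_eq_mul, add_sub_cancel_left] at b1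
    have b2 : (((t ^ 2)⁻¹) ^ 3)⁻¹ * ∫ v in T..(T + h), R v ^ 4 ≤ C * M ^ 10 * (t ^ 2)⁻¹ := by
      calc (((t ^ 2)⁻¹) ^ 3)⁻¹ * ∫ v in T..(T + h), R v ^ 4 ≤ (((t ^ 2)⁻¹) ^ 3)⁻¹ * (C * (W ^ 2 * (W * V))) :=
            mul_le_mul_of_nonneg_left (q1 T (T + h) le_rfl (by linarith) (by linarith)) (by positivity)
        _ = C * M ^ 10 * (t ^ 2)⁻¹ := by
            rw [← eQ]; field_simp
    have b3 : (h + C * M ^ 10) * (t ^ 2)⁻¹ ≤ c1 / 2 * V := by
      have : (h + C * M ^ 10) * (t ^ 2)⁻¹ = ((h + C * M ^ 10) * M ^ 5) * ((t ^ 2)⁻¹ / M ^ 5) := by field_simp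
      rw [this]
      calc ((h + C * M ^ 10) * M ^ 5) * ((t ^ 2)⁻¹ / M ^ 5) ≤ (c1 / 2 * t ^ 3) * ((t ^ 2)⁻¹ / M ^ 5) :=
            mul_le_mul_of_nonneg_right e1 (by positivity)
        _ = c1 / 2 * V := by rw [hV]; field_simp
    linarith
  -- (c)
  have a3 : ∫ v in T..(2 * T), |∫ u in v..(v + h), R u| ≤ c1 / 8 * (h * V) := by
    obtain ⟨U, hU⟩ : ∃ U : ℝ, U = c1 / 16 * (h * V) / T := ⟨_, rfl⟩
    have pU : 0 < U := by rw [hU]; positivity
    have cP : Continuous fun x => ∫ u in T..x, R u := intervalIntegral.continuous_primitive iR T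
    have cA : Continuous fun v => ∫ u in v..(v + h), R u := by
      have : (fun v => ∫ u in v..(v + h), R u) = fun v => (∫ u in T..(v + h), R u) - ∫ u in T..v, R u := by
        funext v
        exact (intervalIntegral.integral_interval_sub_left (iR _ _) (iR _ _)).symm
      rw [this]
      exact (cP.comp (continuous_add_const h)).sub cP
    have i3 : IntervalIntegrable (fun v => U⁻¹ * (∫ u in v..(v + h), R u) ^ 2) volume T (2 * T) :=
      (continuous_const.mul (cA.pow 2)).intervalIntegrable _ _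
    have b1 : ∫ v in T..(2 * T), |∫ u in v..(v + h), R u| ≤
        ∫ v in T..(2 * T), (U + U⁻¹ * (∫ u in v..(v + h), R u) ^ 2) :=
      intervalIntegral.integral_mono_on (by linarith) (cA.abs.intervalIntegrable _ _)
        (intervalIntegrable_const.add i3) (fun v _ => pt1 _ _ pU)
    rw [intervalIntegral.integral_add intervalIntegrable_const i3,
      intervalIntegral.integral_const_mul, intervalIntegral.integral_const, smul_eq_mul] at b1
    have b3 : (2 * T - T) * U = c1 / 16 * (h * V) := by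
      rw [hU]; field_simp; ring
    have b2 : U⁻¹ * ∫ v in T..(2 * T), (∫ u in v..(v + h), R u) ^ 2 ≤ c1 / 16 * (h * V) := by
      have e3 : 256 * C * M ^ 10 ≤ c1 ^ 2 * h := by
        rw [div_mul_eq_mul_div, div_le_iff₀ (by positivity)] at e2
        linarith
      calc U⁻¹ * ∫ v in T..(2 * T), (∫ u in v..(v + h), R u) ^ 2 ≤ U⁻¹ * (C * h * (W * V)) :=
            mul_le_mul_of_nonneg_left h3 (by positivity)
        _ = (256 * C * M ^ 10) * (V / (16 * c1)) := by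
            rw [hU, hW, hTt, hV]; field_simp; ring
        _ ≤ (c1 ^ 2 * h) * (V / (16 * c1)) := mul_le_mul_of_nonneg_right e3 (by positivity)
        _ = c1 / 16 * (h * V) := by field_simp
    linarith
  -- (d)
  have hs : 0 < K * W := by positivity
  have a4 : ((K * W) ^ 3)⁻¹ * (h * ∫ v in T..(3 * T), R v ^ 4) ≤ c1 / 8 * (h * V) := by
    calc ((K * W) ^ 3)⁻¹ * (h * ∫ v in T..(3 * T), R v ^ 4) ≤ ((K * W) ^ 3)⁻¹ * (h * (C * (W ^ 3 * V))) := by
          refine mul_le_mul_of_nonneg_left (mul_le_mul_of_nonneg_left h2 h0.le) (by positivity)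
      _ = C / K ^ 3 * (h * V) := by field_simp
      _ ≤ c1 / 8 * (h * V) := by
          refine mul_le_mul_of_nonneg_right ?_ (by positivity)
          rw [div_le_iff₀ (by positivity)]
          have : K ≤ K ^ 3 := le_self_pow₀ pK (by norm_num)
          rw [div_le_iff₀ pc1] at pK'
          nlinarith
  have hcore := core T h hT0 h0 hhT R hR Z hZ (K * W) hs
  have hsplit := intervalIntegral.integral_add_adjacent_intervals (iA T (T + h)) (iA (T + h) (2 * T))
  have a5 : c1 / 2 * V ≤ ∫ v in (T + h)..(2 * T), |R v| := by linarith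
  have a6 := mul_le_mul_of_nonneg_left a5 h0.le
  have a7 : h * (c1 / 4 * V) ≤ h * (K * W * (Z.card * h)) := by nlinarith
  have a8 : c1 / 4 * V ≤ K * W * (Z.card * h) := le_of_mul_le_mul_left a7 h0
  have a9 : (K * W * h) * (c1 / (4 * K) * (T / (M ^ 10 * h))) = c1 / 4 * V := by
    rw [hW, hV, hTt]; field_simp
  have a10 : (K * W * h) * (c1 / (4 * K) * (T / (M ^ 10 * h))) ≤ (K * W * h) * Z.card := by
    rw [a9]; linarith
  exact le_of_mul_le_mul_left a10 (by positivity)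

/-- passage from a function continuous on `[T, 3T]` to one continuous on the line; `h` arbitrary -/
theorem countL' (c C T t M h : ℝ) (hc : 0 < c) (hC : 0 < C) (K1 c1 K : ℝ)
    (hK1 : K1 = 1 + 2 * C / c) (hc1 : c1 = c / (2 * K1)) (hK : K = 1 + 8 * C / c1)
    (ht : 0 < t) (hTt : T = t ^ 4) (hM : 0 < M) (h0 : 0 < h) (hhT : h ≤ T)
    (e1 : (h + C * M ^ 10) * M ^ 5 ≤ c1 / 2 * t ^ 3) (e2 : 256 * C / c1 ^ 2 * M ^ 10 ≤ h)
    (R : ℝ → ℝ) (hR : ContinuousOn R (Icc T (3 * T))) (h1 : c * (t ^ 2)⁻¹ ≤ ∫ v in T..(2 * T), (R v) ^ 2)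
    (h2 : ∫ v in T..(3 * T), (R v) ^ 4 ≤ C * M ^ 10 * (t ^ 8)⁻¹)
    (h3 : ∫ v in T..(2 * T), (∫ u in v..(v + h), R u) ^ 2 ≤ C * h * (t ^ 2)⁻¹) :
    ∃ S : Finset ℝ, (∀ x ∈ S, T ≤ x ∧ x ≤ 3 * T ∧ R x = 0) ∧ c1 / (4 * K) * (T / (M ^ 10 * h)) ≤ (S.card : ℝ) := by
  have hT0 : 0 < T := by rw [hTt]; positivity
  have hle : T ≤ 3 * T := by linarith
  obtain ⟨R', hR', hRR⟩ : ∃ R' : ℝ → ℝ, Continuous R' ∧ ∀ x ∈ Icc T (3 * T), R' x = R x := by
    refine ⟨IccExtend hle ((Icc T (3 * T)).domRestrict R), (continuousOn_iff_continuous_domRestrict.1 hR).Icc_extend', ?_⟩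
    intro x hx
    rw [IccExtend_of_mem hle _ hx]; rfl
  have g1 : ∫ v in T..(2 * T), (R' v) ^ 2 = ∫ v in T..(2 * T), (R v) ^ 2 := by
    apply intervalIntegral.integral_congr
    intro x hx
    rw [uIcc_of_le (by linarith)] at hx
    show R' x ^ 2 = R x ^ 2
    rw [hRR x ⟨hx.1, by linarith [hx.2]⟩]
  have g2 : ∫ v in T..(3 * T), (R' v) ^ 4 = ∫ v in T..(3 * T), (R v) ^ 4 := by
    apply intervalIntegral.integral_congr
    intro x hx
    rw [uIcc_of_le (by linarith)] at hx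
    show R' x ^ 4 = R x ^ 4
    rw [hRR x ⟨hx.1, hx.2⟩]
  have g3 : ∫ v in T..(2 * T), (∫ u in v..(v + h), R' u) ^ 2 =
      ∫ v in T..(2 * T), (∫ u in v..(v + h), R u) ^ 2 := by
    apply intervalIntegral.integral_congr
    intro v hv
    rw [uIcc_of_le (by linarith)] at hv
    show (∫ u in v..(v + h), R' u) ^ 2 = (∫ u in v..(v + h), R u) ^ 2
    congr 1
    apply intervalIntegral.integral_congr
    intro x hx
    rw [uIcc_of_le (by linarith)] at hx
    exact hRR x ⟨hv.1.trans hx.1, by linarith [hx.2, hv.2]⟩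
  by_cases hfin : {x : ℝ | T ≤ x ∧ x ≤ 3 * T ∧ R x = 0}.Finite
  · refine ⟨hfin.toFinset, fun x hx => by simpa using hx, ?_⟩
    refine countL c C T t M h hc hC K1 c1 K hK1 hc1 hK ht hTt hM h0 hhT e1 e2 R' hR' (g1 ▸ h1) (g2 ▸ h2) (g3 ▸ h3) _ ?_
    intro x hx1 hx2 hx0
    rw [hRR x ⟨hx1, hx2⟩] at hx0
    simpa using ⟨hx1, hx2, hx0⟩
  · obtain ⟨S, hS, hcard⟩ := Set.Infinite.exists_subset_card_eq hfin ⌈c1 / (4 * K) * (T / (M ^ 10 * h))⌉₊
    refine ⟨S, fun x hx => hS hx, ?_⟩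
    rw [hcard]
    exact Nat.le_ceil _

end Pool.Agent.J4H91.RZ
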