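import Pool.Agent.J4H91.RZ.AbsLCore

/-!
# Project RZ, piece ABSL, and the sharper `ABSM`: window `K₂ (log T)^5`, `c₀ T / (log T)^10` zeros
-/

set_option autoImplicit false

namespace Pool.Agent.J4H91.RZ

open MeasureTheory Set Filter

/-- everything with a window `h` between `256 C / c1² (log T)^5` and `K₂ (log T)^6` -/
theorem absL_gen (c C K₂ : ℝ) (hc : 0 < c) (hC : 0 < C) (hK₂ : 1 ≤ K₂) (K1 c1 K : ℝ)
    (hK1 : K1 = 1 + 2 * C / c) (hc1 : c1 = c / (2 * K1)) (hK : K = 1 + 8 * C / c1) :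
    ∃ T₀ : ℝ, 3 ≤ T₀ ∧ ∀ (T h : ℝ) (R : ℝ → ℝ), T₀ ≤ T → 0 < h → h ≤ K₂ * (Real.log T) ^ 6 →
    256 * C / c1 ^ 2 * (Real.log T) ^ 5 ≤ h →
    ContinuousOn R (Set.Icc T (3 * T)) → c * T ^ (-(1 / 2 : ℝ)) ≤ ∫ v in T..(2 * T), (R v) ^ 2 →
    ∫ v in T..(3 * T), (R v) ^ 4 ≤ C * (Real.log T) ^ 5 * T ^ (-(2 : ℝ)) →
    ∫ v in T..(2 * T), (∫ u in v..(v + h), R u) ^ 2 ≤ C * h * T ^ (-(1 / 2 : ℝ)) →
    ∃ S : Finset ℝ, (∀ x ∈ S, T ≤ x ∧ x ≤ 3 * T ∧ R x = 0) ∧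
      c1 / (4 * K) * (T / ((Real.log T) ^ 5 * h)) ≤ (S.card : ℝ) := by
  have pK1 : 1 ≤ K1 := by rw [hK1]; have : 0 < 2 * C / c := by positivity
                          linarith
  have pc1 : 0 < c1 := by rw [hc1]; positivity
  have hd : 0 < c1 / 2 / (K₂ + C) := by positivity
  have E1 := (isLittleO_log_rpow_rpow_atTop (9 : ℝ) (show (0 : ℝ) < 3 / 4 by norm_num)).bound hd
  have E2 := (Real.isLittleO_pow_log_id_atTop (n := 6)).bound (show (0 : ℝ) < K₂⁻¹ by positivity)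
  have E3 := Real.tendsto_log_atTop.eventually_ge_atTop (1 : ℝ)
  obtain ⟨T₀, hT₀⟩ := Filter.eventually_atTop.1 ((E1.and E2).and E3)
  refine ⟨max T₀ 3, le_max_right _ _, fun T h R hT h0 hh6 hh5 hR h1 h2 h3 => ?_⟩
  obtain ⟨⟨f1, f2⟩, f3⟩ := hT₀ T (le_trans (le_max_left _ _) hT)
  have hT3 : 3 ≤ T := le_trans (le_max_right _ _) hT
  have hT0 : 0 < T := by linarith
  obtain ⟨L, hL⟩ : ∃ L : ℝ, L = Real.log T := ⟨_, rfl⟩
  rw [← hL] at f1 f2 f3 hh6 hh5 h2 ⊢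
  have pL : 0 < L := by linarith
  obtain ⟨M, hM⟩ : ∃ M : ℝ, M = √L := ⟨_, rfl⟩
  have pM : 0 < M := by rw [hM]; exact Real.sqrt_pos.2 pL
  have eM : M ^ 2 = L := by rw [hM]; exact Real.sq_sqrt pL.le
  have eM10 : M ^ 10 = L ^ 5 := by rw [← eM]; ring
  have M1 : 1 ≤ M := by rw [hM]; exact Real.one_le_sqrt.2 f3
  have eM5 : M ^ 5 ≤ L ^ 3 := by
    calc M ^ 5 ≤ M ^ 6 := pow_le_pow_right₀ M1 (by norm_num)
      _ = L ^ 3 := by rw [← eM]; ring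
  obtain ⟨t, ht⟩ : ∃ t : ℝ, t = T ^ (1 / 4 : ℝ) := ⟨_, rfl⟩
  have pt0 : 0 < t := by rw [ht]; positivity
  have et4 : T = t ^ 4 := by
    rw [ht, ← Real.rpow_natCast, ← Real.rpow_mul hT0.le]; norm_num
  have et3 : T ^ (3 / 4 : ℝ) = t ^ 3 := by
    rw [ht, ← Real.rpow_natCast, ← Real.rpow_mul hT0.le]; norm_num
  have et2 : T ^ (-(1 / 2 : ℝ)) = (t ^ 2)⁻¹ := by
    rw [ht, ← Real.rpow_natCast, ← Real.rpow_mul hT0.le, ← Real.rpow_neg hT0.le]; norm_num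
  have et8 : T ^ (-(2 : ℝ)) = (t ^ 8)⁻¹ := by
    rw [ht, ← Real.rpow_natCast, ← Real.rpow_mul hT0.le, ← Real.rpow_neg hT0.le]; norm_num
  have g1 : L ^ 9 ≤ c1 / 2 / (K₂ + C) * t ^ 3 := by
    have e9 : L ^ (9 : ℝ) = L ^ 9 := by
      rw [show (9 : ℝ) = ((9 : ℕ) : ℝ) by norm_num, Real.rpow_natCast]
    rw [e9, et3, Real.norm_of_nonneg (by positivity), Real.norm_of_nonneg (by positivity)] at f1
    exact f1
  have g2 : K₂ * L ^ 6 ≤ T := by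
    rw [Real.norm_of_nonneg (by positivity), Real.norm_of_nonneg (by simpa using hT0.le)] at f2
    simp only [id] at f2
    rw [inv_mul_eq_div, le_div_iff₀ (by linarith)] at f2
    linarith
  have hmul : (K₂ + C) * L ^ 9 ≤ c1 / 2 * t ^ 3 := by
    have := mul_le_mul_of_nonneg_left g1 (show 0 ≤ K₂ + C by linarith)
    have e : (K₂ + C) * (c1 / 2 / (K₂ + C) * t ^ 3) = c1 / 2 * t ^ 3 := by
      have : K₂ + C ≠ 0 := by positivity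
      field_simp
    linarith
  have E : (h + C * M ^ 10) * M ^ 5 ≤ c1 / 2 * t ^ 3 := by
    refine le_trans ?_ hmul
    have s1 : C * M ^ 10 ≤ C * L ^ 6 := by
      rw [eM10]
      exact mul_le_mul_of_nonneg_left (pow_le_pow_right₀ f3 (by norm_num)) hC.le
    calc (h + C * M ^ 10) * M ^ 5 ≤ (K₂ * L ^ 6 + C * L ^ 6) * L ^ 3 :=
          mul_le_mul (add_le_add hh6 s1) eM5 (by positivity) (by positivity)
      _ = (K₂ + C) * L ^ 9 := by ring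
  have := countL' c C T t M h hc hC K1 c1 K hK1 hc1 hK pt0 et4 pM h0 (hh6.trans g2) E (by rw [eM10]; exact hh5) R hR
    (by rw [← et2]; exact h1) (by rw [eM10, ← et8]; exact h2) (by rw [← et2]; exact h3)
  rw [eM10] at this
  exact this

/-- `S_ABSL` -/
theorem absl_main : ∀ c C : ℝ, 0 < c → 0 < C → ∃ T₀ : ℝ, 3 ≤ T₀ ∧ ∀ (T : ℝ) (R : ℝ → ℝ), T₀ ≤ T →
    ContinuousOn R (Set.Icc T (3 * T)) → c * T ^ (-(1 / 2 : ℝ)) ≤ ∫ v in T..(2 * T), (R v) ^ 2 →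
    ∫ v in T..(3 * T), (R v) ^ 4 ≤ C * (Real.log T) ^ 5 * T ^ (-(2 : ℝ)) →
    ∫ v in T..(2 * T), (∫ u in v..(v + (Real.log T) ^ 6), R u) ^ 2 ≤ C * (Real.log T) ^ 6 * T ^ (-(1 / 2 : ℝ)) →
    ∃ S : Finset ℝ, (∀ x ∈ S, T ≤ x ∧ x ≤ 3 * T ∧ R x = 0) ∧ T / (Real.log T) ^ 14 ≤ (S.card : ℝ) := by
  intro c C hc hC
  obtain ⟨K1, hK1⟩ : ∃ K1 : ℝ, K1 = 1 + 2 * C / c := ⟨_, rfl⟩
  obtain ⟨c1, hc1⟩ : ∃ c1 : ℝ, c1 = c / (2 * K1) := ⟨_, rfl⟩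
  obtain ⟨K, hK⟩ : ∃ K : ℝ, K = 1 + 8 * C / c1 := ⟨_, rfl⟩
  have pK1 : 1 ≤ K1 := by rw [hK1]; have : 0 < 2 * C / c := by positivity
                          linarith
  have pc1 : 0 < c1 := by rw [hc1]; positivity
  have pK : 1 ≤ K := by rw [hK]; have : 0 < 8 * C / c1 := by positivity
                        linarith
  obtain ⟨T₀, hT₀3, hT₀⟩ := absL_gen c C 1 hc hC le_rfl K1 c1 K hK1 hc1 hK
  have E3 := Real.tendsto_log_atTop.eventually_ge_atTop (1 + 256 * C / c1 ^ 2 + 4 * K / c1)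
  obtain ⟨T₁, hT₁⟩ := Filter.eventually_atTop.1 E3
  refine ⟨max T₀ T₁, le_trans hT₀3 (le_max_left _ _), fun T R hT hR h1 h2 h3 => ?_⟩
  have f := hT₁ T (le_trans (le_max_right _ _) hT)
  have hTT := le_trans (le_max_left _ _) hT
  have hT0 : 0 < T := by linarith
  obtain ⟨L, hL⟩ : ∃ L : ℝ, L = Real.log T := ⟨_, rfl⟩
  have k1 : 0 < 256 * C / c1 ^ 2 := by positivity
  have k2 : 0 < 4 * K / c1 := by positivity
  have pL : 1 ≤ L := by rw [hL]; linarith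
  obtain ⟨S, hS, hcard⟩ := hT₀ T (Real.log T ^ 6) R hTT (by rw [← hL]; positivity) (by rw [one_mul])
    (by rw [← hL]
        have : 256 * C / c1 ^ 2 ≤ L := by rw [hL]; linarith
        calc 256 * C / c1 ^ 2 * L ^ 5 ≤ L * L ^ 5 := mul_le_mul_of_nonneg_right this (by positivity)
          _ = L ^ 6 := by ring) hR h1 h2 h3
  refine ⟨S, hS, le_trans ?_ hcard⟩
  rw [← hL]
  have s1 : 4 * K / c1 ≤ L ^ 3 := by
    have : 4 * K / c1 ≤ L := by rw [hL]; linarith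
    exact this.trans (le_self_pow₀ pL (by norm_num))
  have s2 : 4 * K ≤ L ^ 3 * c1 := by rwa [div_le_iff₀ pc1] at s1
  have s3 : c1 / (4 * K) * (T / (L ^ 5 * L ^ 6)) = (L ^ 3 * c1) / (4 * K) * (T / L ^ 14) := by
    have : L ≠ 0 := by positivity
    field_simp
  rw [s3]
  have s4 : 1 ≤ (L ^ 3 * c1) / (4 * K) := by
    rw [le_div_iff₀ (by positivity)]; linarith
  have s5 : 0 ≤ T / L ^ 14 := by positivity
  nlinarith

/-- the sharper form: window `K₂ (log T)^5`, at least `c₀ T / (log T)^10` zeros -/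
theorem absm_main : ∀ c C : ℝ, 0 < c → 0 < C → ∃ K₂ c₀ T₀ : ℝ, 1 ≤ K₂ ∧ 0 < c₀ ∧ 3 ≤ T₀ ∧ ∀ (T : ℝ) (R : ℝ → ℝ), T₀ ≤ T →
    ContinuousOn R (Set.Icc T (3 * T)) → c * T ^ (-(1 / 2 : ℝ)) ≤ ∫ v in T..(2 * T), (R v) ^ 2 →
    ∫ v in T..(3 * T), (R v) ^ 4 ≤ C * (Real.log T) ^ 5 * T ^ (-(2 : ℝ)) →
    ∫ v in T..(2 * T), (∫ u in v..(v + K₂ * (Real.log T) ^ 5), R u) ^ 2 ≤
      C * (K₂ * (Real.log T) ^ 5) * T ^ (-(1 / 2 : ℝ)) →
    ∃ S : Finset ℝ, (∀ x ∈ S, T ≤ x ∧ x ≤ 3 * T ∧ R x = 0) ∧ c₀ * (T / (Real.log T) ^ 10) ≤ (S.card : ℝ) := by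
  intro c C hc hC
  obtain ⟨K1, hK1⟩ : ∃ K1 : ℝ, K1 = 1 + 2 * C / c := ⟨_, rfl⟩
  obtain ⟨c1, hc1⟩ : ∃ c1 : ℝ, c1 = c / (2 * K1) := ⟨_, rfl⟩
  obtain ⟨K, hK⟩ : ∃ K : ℝ, K = 1 + 8 * C / c1 := ⟨_, rfl⟩
  have pK1 : 1 ≤ K1 := by rw [hK1]; have : 0 < 2 * C / c := by positivity
                          linarith
  have pc1 : 0 < c1 := by rw [hc1]; positivity
  have pK : 1 ≤ K := by rw [hK]; have : 0 < 8 * C / c1 := by positivity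
                        linarith
  have hK₂ : 1 ≤ max 1 (256 * C / c1 ^ 2) := le_max_left _ _
  obtain ⟨K₂, hK₂e⟩ : ∃ K₂ : ℝ, K₂ = max 1 (256 * C / c1 ^ 2) := ⟨_, rfl⟩
  rw [← hK₂e] at hK₂
  have hK₂' : 256 * C / c1 ^ 2 ≤ K₂ := by rw [hK₂e]; exact le_max_right _ _
  obtain ⟨T₀, hT₀3, hT₀⟩ := absL_gen c C K₂ hc hC hK₂ K1 c1 K hK1 hc1 hK
  have E3 := Real.tendsto_log_atTop.eventually_ge_atTop (1 : ℝ)
  obtain ⟨T₁, hT₁⟩ := Filter.eventually_atTop.1 E3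
  refine ⟨K₂, c1 / (4 * K) / K₂, max T₀ T₁, hK₂, by positivity, le_trans hT₀3 (le_max_left _ _), fun T R hT hR h1 h2 h3 => ?_⟩
  have f := hT₁ T (le_trans (le_max_right _ _) hT)
  have hTT := le_trans (le_max_left _ _) hT
  have hT0 : 0 < T := by linarith
  obtain ⟨L, hL⟩ : ∃ L : ℝ, L = Real.log T := ⟨_, rfl⟩
  have pL : 1 ≤ L := by rw [hL]; exact f
  obtain ⟨S, hS, hcard⟩ := hT₀ T (K₂ * Real.log T ^ 5) R hTT (by rw [← hL]; positivity)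
    (by rw [← hL]; exact mul_le_mul_of_nonneg_left (pow_le_pow_right₀ pL (by norm_num)) (by positivity))
    (by rw [← hL]; exact mul_le_mul_of_nonneg_right hK₂' (by positivity)) hR h1 h2 h3
  refine ⟨S, hS, le_trans (le_of_eq ?_) hcard⟩
  rw [← hL]
  have : L ≠ 0 := by positivity
  have : K₂ ≠ 0 := by positivity
  field_simp

end Pool.Agent.J4H91.RZ
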