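import Pool.Agent.J4H5.RZ.Stm2
import Pool.Agent.J4H91.RZ.AbsLFin

/-!
# Project RZ, piece ABSL: `S_ABSL`
-/

set_option autoImplicit false

namespace Pool.Agent.J4H91.RZ

theorem t_ABSL : Pool.Agent.J4H5.RZ.S_ABSL := absl_main

end Pool.Agent.J4H91.RZ
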